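import Pool.Agent.H986R2.K4.HHb
import Pool.Agent.H986R2.K4.A1
import Pool.Agent.H24R2.JP.All
import Pool.Agent.Y671.GL.Spec2

set_option autoImplicit false

/-!
# The Riemann zeta function as an entire L-function

`XX z = 8 ξ(1/2 + z) = HZ z * ZZ (1/2 + z)` with the entire function `ZZ s = (s - 1) ζ(s) / (s + 2)`: the pole at
`s = -2` is cancelled by the trivial zero.
-/

namespace Pool.Agent.Q278.ZA

open Complex Filter Topology MeasureTheory Set
open Pool.Agent.H24R2.JP (XX HH Om FF)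
open Pool.Agent.Y671.GL (CF)
open scoped ComplexConjugate

/-- `(s - 1) ζ(s) / (s + 2)` -/
noncomputable def ZZ (s : ℂ) : ℂ :=
  (s * (s - 1) * completedRiemannZeta₀ s + 1) *
    ((Real.pi : ℂ) ^ (s / 2) * (Complex.Gamma (s / 2 + 2))⁻¹ / 4)

theorem ZZ_diff : Differentiable ℂ ZZ := by
  have h1 := differentiable_completedZeta₀
  have h2 : Differentiable ℂ (fun s : ℂ => (Complex.Gamma (s / 2 + 2))⁻¹) :=
    Complex.differentiable_one_div_Gamma.comp (by fun_prop)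
  have hpi : (Real.pi : ℂ) ≠ 0 := by exact_mod_cast Real.pi_ne_zero
  have h3 : Differentiable ℂ (fun s : ℂ => (Real.pi : ℂ) ^ (s / 2)) := by
    intro s
    exact ((differentiableAt_id.div_const 2).const_cpow (Or.inl hpi))
  unfold ZZ
  fun_prop

/-- the relation with the zeta function -/
theorem ZZ_eq {s : ℂ} (h0 : s ≠ 0) (h1 : s ≠ 1) (h2 : s / 2 + 1 ≠ 0) (hG : Complex.Gamma (s / 2) ≠ 0) :
    ZZ s = (s - 1) / (s + 2) * riemannZeta s := by
  have hpi : (Real.pi : ℂ) ≠ 0 := by exact_mod_cast Real.pi_ne_zero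
  have e1 : Complex.Gamma (s / 2 + 2) = (s / 2 + 1) * (s / 2 * Complex.Gamma (s / 2)) := by
    have e : s / 2 + 2 = (s / 2 + 1) + 1 := by ring
    rw [e, Complex.Gamma_add_one _ h2, Complex.Gamma_add_one _ (div_ne_zero h0 two_ne_zero)]
  have e2 : riemannZeta s = completedRiemannZeta s / Gammaℝ s := riemannZeta_def_of_ne_zero h0
  have e3 : completedRiemannZeta s = completedRiemannZeta₀ s - 1 / s - 1 / (1 - s) := completedRiemannZeta_eq s
  have e4 : Gammaℝ s = (Real.pi : ℂ) ^ (-s / 2) * Complex.Gamma (s / 2) := rfl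
  have e5 : (Real.pi : ℂ) ^ (-s / 2) = ((Real.pi : ℂ) ^ (s / 2))⁻¹ := by
    rw [← Complex.cpow_neg]
    congr 1
    ring
  have hp : (Real.pi : ℂ) ^ (s / 2) ≠ 0 := by
    rw [Complex.cpow_def_of_ne_zero hpi]
    exact Complex.exp_ne_zero _
  have h1' : (1 : ℂ) - s ≠ 0 := fun h => h1 (by linear_combination -h)
  have h2' : s + 2 ≠ 0 := fun h => h2 (by linear_combination h / 2)
  unfold ZZ
  rw [e1, e2, e3, e4, e5]
  field_simp
  ring

theorem ZZ_eq_im {s : ℂ} (h : 0 < s.im) : ZZ s = (s - 1) / (s + 2) * riemannZeta s := by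
  have h0 : s ≠ 0 := fun h0 => by rw [h0] at h; simp at h
  have h1 : s ≠ 1 := fun h0 => by rw [h0] at h; simp at h
  have h2 : s / 2 + 1 ≠ 0 := fun h0 => by
    have := congrArg Complex.im h0
    simp at this
    linarith
  refine ZZ_eq h0 h1 h2 (Complex.Gamma_ne_zero fun m hm => ?_)
  have := congrArg Complex.im hm
  simp at this
  linarith

theorem ZZ_eq_re {s : ℂ} (h : 1 < s.re) : ZZ s = (s - 1) / (s + 2) * riemannZeta s := by
  have h0 : s ≠ 0 := fun h0 => by rw [h0] at h; simp at h; linarith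
  have h1 : s ≠ 1 := fun h0 => by rw [h0] at h; simp at h
  have h2 : s / 2 + 1 ≠ 0 := fun h0 => by
    have := congrArg Complex.re h0
    simp at this
    linarith
  refine ZZ_eq h0 h1 h2 (Complex.Gamma_ne_zero_of_re_pos ?_)
  simp
  linarith

/-- the gamma factor -/
noncomputable def HZ (w : ℂ) : ℂ := (w + 5 / 2) / (w - 1 / 2) * HH w

theorem XX_eq (w : ℂ) (hw : 0 < w.im) : XX w = HZ w * ZZ (1 / 2 + w) := by
  rw [Pool.Agent.H24R2.JP.zetaS.1 w hw, HZ, ZZ_eq_im (by simpa using hw)]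
  have h1 : w - 1 / 2 ≠ 0 := fun h0 => by
    have := congrArg Complex.im h0
    simp at this
    linarith
  have h2 : w + 5 / 2 ≠ 0 := fun h0 => by
    have := congrArg Complex.im h0
    simp at this
    linarith
  have e1 : (1 / 2 + w - 1 : ℂ) = w - 1 / 2 := by ring
  have e2 : (1 / 2 + w + 2 : ℂ) = w + 5 / 2 := by ring
  rw [e1, e2]
  have e3 : (w + 5 / 2) / (w - 1 / 2) * ((w - 1 / 2) / (w + 5 / 2)) = 1 := by
    rw [div_mul_div_comm, mul_comm (w + 5 / 2), div_self (mul_ne_zero h1 h2)]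
  linear_combination (-(HH w * riemannZeta (1 / 2 + w))) * e3

theorem XX_symm (z : ℂ) : XX (-(conj z)) = conj (XX z) := by
  have h := Pool.Agent.H24R2.JP.b1
  rw [← h.2.1, ← h.2.1, ← h.2.2.1, neg_sq, map_pow]

theorem XX_diff : Differentiable ℂ XX := by
  have h1 := differentiable_completedZeta₀
  unfold Pool.Agent.H24R2.JP.XX
  fun_prop

theorem q_alg {a b : ℂ} (hb : b ≠ 0) (ha : a ≠ 0) : (1 * a - b * 1) / a ^ 2 / (b / a) = 1 / b - 1 / a := by
  field_simp

/-- the rational factor -/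
theorem q_bound {w : ℂ} (h : 6 ≤ ‖w - 1 / 2‖) :
    1 / 2 ≤ ‖(w + 5 / 2) / (w - 1 / 2)‖ ∧ ‖(w + 5 / 2) / (w - 1 / 2)‖ ≤ 3 / 2 := by
  have h0 : w - 1 / 2 ≠ 0 := by
    rw [← norm_pos_iff]
    linarith
  have e : (w + 5 / 2) / (w - 1 / 2) = 1 + 3 / (w - 1 / 2) := by
    rw [div_eq_iff h0, add_mul, one_mul, div_mul_cancel₀ _ h0]
    ring
  have h1 : ‖3 / (w - 1 / 2)‖ ≤ 1 / 2 := by
    rw [norm_div, div_le_iff₀ (by linarith)]
    have : ‖(3 : ℂ)‖ = 3 := by norm_num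
    rw [this]
    linarith
  rw [e]
  constructor
  · have h2 := norm_sub_norm_le (1 : ℂ) (-(3 / (w - 1 / 2)))
    rw [norm_neg, sub_neg_eq_add, norm_one] at h2
    linarith
  · have h2 := norm_add_le (1 : ℂ) (3 / (w - 1 / 2))
    rw [norm_one] at h2
    linarith

theorem far_of_big {t R : ℝ} {u : ℂ} (ht : R + 10 ≤ t) (hu : ‖u‖ ≤ R) :
    6 ≤ ‖(I * t + u) - 1 / 2‖ := by
  have h1 := Complex.abs_im_le_norm ((I * t + u) - 1 / 2)
  have e : ((I * t + u) - 1 / 2).im = t + u.im := by simp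
  rw [e] at h1
  have h2 := (Complex.abs_im_le_norm u).trans hu
  have h3 := (abs_le.1 h2).1
  have h4 := le_abs_self (t + u.im)
  linarith

theorem gam_zeta (R : ℝ) (hR : 1 ≤ R) : ∃ K T0 : ℝ, 0 < K ∧ 2 ≤ T0 ∧ ∀ (t : ℝ) (u : ℂ), T0 ≤ t → ‖u‖ ≤ R →
    DifferentiableAt ℂ HZ (I * t + u) ∧ HZ (I * t + u) ≠ 0 ∧
    ‖logDeriv HZ (I * t + u) - ((1 / 2 * Real.log t : ℝ) : ℂ)‖ ≤ K ∧
    Real.exp (1 / 2 * Real.log t * u.re - K) * ‖HZ (I * t)‖ ≤ ‖HZ (I * t + u)‖ ∧
    ‖HZ (I * t + u)‖ ≤ Real.exp (1 / 2 * Real.log t * u.re + K) * ‖HZ (I * t)‖ := by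
  obtain ⟨K, hK1, hK⟩ := Pool.Agent.H986R2.K4.hh
  obtain ⟨T0, hT0, hH⟩ := hK R hR
  refine ⟨K * R + 2, max T0 (R + 10), by positivity, hT0.trans (le_max_left _ _), fun t u ht hu => ?_⟩
  have ht0 : T0 ≤ t := (le_max_left _ _).trans ht
  have htR : R + 10 ≤ t := (le_max_right _ _).trans ht
  obtain ⟨h1, h2, h3, h4, h5⟩ := hH t u ht0 hu
  obtain ⟨w, hw⟩ : ∃ w : ℂ, w = I * t + u := ⟨_, rfl⟩
  have g1 : 6 ≤ ‖w - 1 / 2‖ := by rw [hw]; exact far_of_big htR hu
  have g2 : 6 ≤ ‖(I * t : ℂ) - 1 / 2‖ := by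
    have := far_of_big (t := t) (R := R) (u := 0) htR (by rw [norm_zero]; linarith)
    simpa using this
  obtain ⟨q1, q2⟩ := q_bound g1
  obtain ⟨q3, q4⟩ := q_bound g2
  have hne1 : w - 1 / 2 ≠ 0 := by rw [← norm_pos_iff]; linarith
  have hne2 : w + 5 / 2 ≠ 0 := by
    intro h0
    rw [h0, zero_div, norm_zero] at q1
    linarith
  have hOm : Om t = 1 / 2 * Real.log t := by unfold Pool.Agent.H24R2.JP.Om; ring
  rw [hOm] at h3 h4 h5
  rw [← hw] at h1 h2 h3 h4 h5 ⊢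
  have hqd : DifferentiableAt ℂ (fun w : ℂ => (w + 5 / 2) / (w - 1 / 2)) w := by
    have d1 : HasDerivAt (fun w : ℂ => w + 5 / 2) 1 w := (hasDerivAt_id w).add_const _
    have d2 : HasDerivAt (fun w : ℂ => w - 1 / 2) 1 w := (hasDerivAt_id w).sub_const _
    exact (d1.div d2 hne1).differentiableAt
  have hl2 : Real.log 2 ≤ 1 := by have := Real.log_two_lt_d9; linarith
  have hexp2 : 3 ≤ Real.exp 2 := by
    have := Real.add_one_le_exp (2 : ℝ)
    linarith
  refine ⟨hqd.mul h1, mul_ne_zero (div_ne_zero hne2 hne1) h2, ?_, ?_, ?_⟩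
  · have e1 : logDeriv HZ w = logDeriv (fun w : ℂ => (w + 5 / 2) / (w - 1 / 2)) w + logDeriv HH w := by
      have : HZ = fun w => (w + 5 / 2) / (w - 1 / 2) * HH w := rfl
      rw [this]
      exact logDeriv_mul w (div_ne_zero hne2 hne1) h2 hqd h1
    have e2 : logDeriv (fun w : ℂ => (w + 5 / 2) / (w - 1 / 2)) w = 1 / (w + 5 / 2) - 1 / (w - 1 / 2) := by
      have d1 : HasDerivAt (fun w : ℂ => w + 5 / 2) 1 w := (hasDerivAt_id w).add_const _
      have d2 : HasDerivAt (fun w : ℂ => w - 1 / 2) 1 w := (hasDerivAt_id w).sub_const _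
      have d3 : HasDerivAt (fun w : ℂ => (w + 5 / 2) / (w - 1 / 2))
          ((1 * (w - 1 / 2) - (w + 5 / 2) * 1) / (w - 1 / 2) ^ 2) w := d1.div d2 hne1
      rw [logDeriv_apply, d3.deriv]
      exact q_alg hne2 hne1
    have g3 : ‖1 / (w + 5 / 2)‖ ≤ 1 := by
      rw [norm_div, norm_one, div_le_one (norm_pos_iff.2 hne2)]
      have e : w + 5 / 2 = (w - 1 / 2) + 3 := by ring
      have := norm_sub_norm_le (w - 1 / 2) (-3)
      rw [sub_neg_eq_add, ← e, norm_neg] at this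
      have e3 : ‖(3 : ℂ)‖ = 3 := by norm_num
      rw [e3] at this
      linarith
    have g4 : ‖1 / (w - 1 / 2)‖ ≤ 1 := by
      rw [norm_div, norm_one, div_le_one (by linarith)]
      linarith
    have e3 : logDeriv HZ w - ((1 / 2 * Real.log t : ℝ) : ℂ) =
        (1 / (w + 5 / 2) - 1 / (w - 1 / 2)) + (logDeriv HH w - ((1 / 2 * Real.log t : ℝ) : ℂ)) := by
      rw [e1, e2]
      ring
    rw [e3]
    refine (norm_add_le _ _).trans ?_
    have g5 := norm_sub_le (1 / (w + 5 / 2)) (1 / (w - 1 / 2))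
    have g6 : K ≤ K * R := le_mul_of_one_le_right (by linarith) hR
    linarith
  · unfold HZ
    rw [norm_mul, norm_mul]
    have e1 : Real.exp (1 / 2 * Real.log t * u.re - (K * R + 2)) =
        Real.exp (1 / 2 * Real.log t * u.re - K * R) * (Real.exp 2)⁻¹ := by
      rw [← Real.exp_neg, ← Real.exp_add]
      congr 1
      ring
    rw [e1]
    have h6 : (Real.exp 2)⁻¹ ≤ 1 / 3 := by
      rw [one_div]
      exact inv_anti₀ (by norm_num) hexp2
    calc Real.exp (1 / 2 * Real.log t * u.re - K * R) * (Real.exp 2)⁻¹ * (‖(I * ↑t + 5 / 2) / (I * ↑t - 1 / 2)‖ * ‖HH (I * ↑t)‖)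
        ≤ Real.exp (1 / 2 * Real.log t * u.re - K * R) * (1 / 3) * (3 / 2 * ‖HH (I * ↑t)‖) := by gcongr
      _ = 1 / 2 * (Real.exp (1 / 2 * Real.log t * u.re - K * R) * ‖HH (I * ↑t)‖) := by ring
      _ ≤ ‖(w + 5 / 2) / (w - 1 / 2)‖ * ‖HH w‖ := by gcongr
  · unfold HZ
    rw [norm_mul, norm_mul]
    have e1 : Real.exp (1 / 2 * Real.log t * u.re + (K * R + 2)) =
        Real.exp (1 / 2 * Real.log t * u.re + K * R) * Real.exp 2 := by
      rw [← Real.exp_add]
      congr 1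
      ring
    rw [e1]
    calc ‖(w + 5 / 2) / (w - 1 / 2)‖ * ‖HH w‖ ≤ 3 / 2 * (Real.exp (1 / 2 * Real.log t * u.re + K * R) * ‖HH (I * ↑t)‖) := by
          gcongr
      _ = Real.exp (1 / 2 * Real.log t * u.re + K * R) * 3 * (1 / 2 * ‖HH (I * ↑t)‖) := by ring
      _ ≤ Real.exp (1 / 2 * Real.log t * u.re + K * R) * Real.exp 2 *
          (‖(I * ↑t + 5 / 2) / (I * ↑t - 1 / 2)‖ * ‖HH (I * ↑t)‖) := by gcongr

/-- polynomial growth to the right -/
theorem gro_right (R : ℝ) (hR : 1 ≤ R) : ∃ K T0 : ℝ, 0 < K ∧ 2 ≤ T0 ∧ ∀ (t : ℝ) (u : ℂ), T0 ≤ t → ‖u‖ ≤ R →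
    0 ≤ u.re → ‖ZZ (1 / 2 + (I * t + u))‖ ≤ t ^ K := by
  obtain ⟨-, K, hK1, hK⟩ := Pool.Agent.H24R2.JP.zetaS
  refine ⟨3, max (2 * R + 10) (3 * K), by norm_num, by have := le_max_left (2 * R + 10) (3 * K); linarith, fun t u ht hu hre => ?_⟩
  have htR : 2 * R + 10 ≤ t := (le_max_left _ _).trans ht
  have htK : 3 * K ≤ t := (le_max_right _ _).trans ht
  obtain ⟨s, hs⟩ : ∃ s : ℂ, s = 1 / 2 + (I * t + u) := ⟨_, rfl⟩
  have hsre : s.re = 1 / 2 + u.re := by rw [hs]; simp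
  have hsim : s.im = t + u.im := by rw [hs]; simp
  have hui := abs_le.1 ((Complex.abs_im_le_norm u).trans hu)
  have hur := (Complex.abs_re_le_norm u).trans hu
  rw [abs_of_nonneg hre] at hur
  have h1 := hK s 1 (by linarith) (by linarith) le_rfl
  simp only [Finset.Icc_self, Finset.sum_singleton, Nat.cast_one, one_cpow, Real.one_rpow, mul_one] at h1
  have h2 : ‖riemannZeta s‖ ≤ 1 + K * ‖s‖ := by
    have := norm_sub_norm_le (riemannZeta s) 1
    rw [norm_one] at this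
    linarith
  have h3 : ‖s‖ ≤ 2 * t := by
    refine (Complex.norm_le_abs_re_add_abs_im s).trans ?_
    rw [abs_of_nonneg (by linarith), abs_of_nonneg (by linarith)]
    linarith
  have hne : s + 2 ≠ 0 := fun h0 => by
    have := congrArg Complex.im h0
    simp at this
    linarith
  have h4 : ‖(s - 1) / (s + 2)‖ ≤ 1 := by
    rw [norm_div, div_le_one (norm_pos_iff.2 hne)]
    rw [Complex.norm_def, Complex.norm_def]
    apply Real.sqrt_le_sqrt
    rw [Complex.normSq_apply, Complex.normSq_apply]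
    simp
    nlinarith
  rw [← hs, ZZ_eq_im (by linarith), norm_mul]
  have ht1 : 1 ≤ t := by linarith
  calc ‖(s - 1) / (s + 2)‖ * ‖riemannZeta s‖ ≤ 1 * (1 + K * (2 * t)) := by gcongr; exact h2.trans (by gcongr)
    _ ≤ t ^ (3 : ℝ) := by
        have e : t ^ (3 : ℝ) = t ^ 3 := by exact_mod_cast Real.rpow_natCast t 3
        rw [e]
        nlinarith [mul_le_mul htK ht1 (by norm_num) (by linarith)]

/-- polynomial growth -/
theorem gro_zeta (R : ℝ) (hR : 1 ≤ R) : ∃ K T0 : ℝ, 0 < K ∧ 2 ≤ T0 ∧ ∀ (t : ℝ) (u : ℂ), T0 ≤ t → ‖u‖ ≤ R →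
    ‖ZZ (1 / 2 + (I * t + u))‖ ≤ t ^ K := by
  obtain ⟨K1, T1, hK1, hT1, h1⟩ := gro_right R hR
  obtain ⟨K2, T2, hK2, hT2, h2⟩ := gam_zeta R hR
  refine ⟨K1 + R + 1, max (max T1 T2) (max (Real.exp (2 * K2)) (R + 10)), by positivity,
    hT1.trans ((le_max_left _ _).trans (le_max_left _ _)), fun t u ht hu => ?_⟩
  have g1 : T1 ≤ t := ((le_max_left _ _).trans (le_max_left _ _)).trans ht
  have g2 : T2 ≤ t := ((le_max_right _ _).trans (le_max_left _ _)).trans ht
  have g3 : Real.exp (2 * K2) ≤ t := ((le_max_left _ _).trans (le_max_right _ _)).trans ht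
  have g4 : R + 10 ≤ t := ((le_max_right _ _).trans (le_max_right _ _)).trans ht
  have ht0 : 0 < t := by linarith
  have ht1 : 1 ≤ t := by linarith
  have hl : 0 ≤ Real.log t := Real.log_nonneg ht1
  rcases le_or_gt 0 u.re with h0 | h0
  · refine (h1 t u g1 hu h0).trans ?_
    apply Real.rpow_le_rpow_of_exponent_le ht1
    linarith
  · obtain ⟨v, hv⟩ : ∃ v : ℂ, v = -(conj u) := ⟨_, rfl⟩
    have hvn : ‖v‖ ≤ R := by rw [hv, norm_neg, RCLike.norm_conj]; exact hu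
    have hvre : v.re = -u.re := by rw [hv]; simp
    have him : ∀ w : ℂ, ‖w‖ ≤ R → 0 < (I * t + w).im := by
      intro w hw
      have e : (I * t + w).im = t + w.im := by simp
      rw [e]
      have := (abs_le.1 ((Complex.abs_im_le_norm w).trans hw)).1
      linarith
    have e1 : (I * t + v : ℂ) = -(conj (I * t + u)) := by
      rw [hv]
      apply Complex.ext <;> simp [add_comm]
    have e2 : ‖XX (I * t + v)‖ = ‖XX (I * t + u)‖ := by rw [e1, XX_symm, RCLike.norm_conj]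
    rw [XX_eq _ (him v hvn), XX_eq _ (him u hu), norm_mul, norm_mul] at e2
    obtain ⟨-, a2, -, a4, a5⟩ := h2 t u g2 hu
    obtain ⟨-, b2, -, b4, b5⟩ := h2 t v g2 hvn
    have c1 := h1 t v g1 hvn (by linarith)
    obtain ⟨-, d2, -, -, -⟩ := h2 t 0 g2 (by rw [norm_zero]; linarith)
    rw [add_zero] at d2
    have hpos : 0 < ‖HZ (I * t)‖ := norm_pos_iff.2 d2
    have hur := (abs_le.1 ((Complex.abs_re_le_norm u).trans hu)).1
    have key : Real.exp (1 / 2 * Real.log t * u.re - K2) * ‖HZ (I * t)‖ * ‖ZZ (1 / 2 + (I * t + u))‖ ≤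
        Real.exp (1 / 2 * Real.log t * v.re + K2) * ‖HZ (I * t)‖ * t ^ K1 := by
      calc _ ≤ ‖HZ (I * t + u)‖ * ‖ZZ (1 / 2 + (I * t + u))‖ := by gcongr
        _ = ‖HZ (I * t + v)‖ * ‖ZZ (1 / 2 + (I * t + v))‖ := e2.symm
        _ ≤ _ := by gcongr
    have hE : 0 < Real.exp (1 / 2 * Real.log t * u.re - K2) * ‖HZ (I * t)‖ := by positivity
    have e3 : Real.exp (1 / 2 * Real.log t * v.re + K2) * ‖HZ (I * t)‖ * t ^ K1 =
        Real.exp (1 / 2 * Real.log t * u.re - K2) * ‖HZ (I * t)‖ *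
          (Real.exp (Real.log t * (-u.re) + 2 * K2) * t ^ K1) := by
      rw [hvre]
      have : Real.exp (1 / 2 * Real.log t * -u.re + K2) = Real.exp (1 / 2 * Real.log t * u.re - K2) *
          Real.exp (Real.log t * (-u.re) + 2 * K2) := by
        rw [← Real.exp_add]
        congr 1
        ring
      rw [this]
      ring
    rw [e3] at key
    refine (le_of_mul_le_mul_left key hE).trans ?_
    have e4 : Real.exp (Real.log t * (-u.re) + 2 * K2) ≤ t ^ R * t := by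
      rw [Real.exp_add]
      have : Real.exp (Real.log t * (-u.re)) ≤ t ^ R := by
        rw [Real.rpow_def_of_pos ht0]
        apply Real.exp_le_exp.2
        apply mul_le_mul_of_nonneg_left _ hl
        linarith
      gcongr
    have e5 : t ^ (K1 + R + 1) = t ^ R * t * t ^ K1 := by
      rw [Real.rpow_add ht0, Real.rpow_add ht0, Real.rpow_one]
      ring
    rw [e5]
    gcongr

/-- the half-plane of absolute convergence -/
theorem rgt_zeta (ε : ℝ) (hε : 0 < ε) : ∃ c K : ℝ, 0 < c ∧ 0 < K ∧ ∀ s : ℂ, 1 + ε ≤ s.re →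
    c ≤ ‖ZZ s‖ ∧ ‖ZZ s‖ ≤ K ∧ ‖logDeriv ZZ s‖ ≤ K := by
  have h1σ : (1 : ℝ) < ((1 + ε : ℝ) : ℂ).re := by simp; linarith
  obtain ⟨C1, hC1, hb1⟩ := Pool.Agent.H986R2.K4.A1Aux.bound 1 (1 + ε) (LSeriesSummable_one_iff.mpr h1σ)
  obtain ⟨C2, hC2, hb2⟩ := Pool.Agent.H986R2.K4.A1Aux.bound (fun n => ((ArithmeticFunction.moebius n : ℤ) : ℂ)) (1 + ε)
    (ArithmeticFunction.LSeriesSummable_moebius_iff.mpr h1σ)
  obtain ⟨C3, hC3, hb3⟩ := Pool.Agent.H986R2.K4.A1Aux.bound (fun n => ((ArithmeticFunction.vonMangoldt n : ℝ) : ℂ)) (1 + ε)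
    (ArithmeticFunction.LSeriesSummable_vonMangoldt h1σ)
  refine ⟨ε / (ε + 3) * C2⁻¹, C1 + (1 / ε + 1 + C3), by positivity, by positivity, fun s hs => ?_⟩
  have hre1 : 1 < s.re := by linarith
  have hz : riemannZeta s ≠ 0 := riemannZeta_ne_zero_of_one_lt_re hre1
  have hb1' := hb1 s hs
  have hb2' := hb2 s hs
  have hb3' := hb3 s hs
  rw [LSeries_one_eq_riemannZeta hre1] at hb1'
  have hmul := ArithmeticFunction.LSeries_zeta_mul_Lseries_moebius hre1
  rw [ArithmeticFunction.LSeries_zeta_eq_riemannZeta hre1] at hmul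
  rw [ArithmeticFunction.LSeries_vonMangoldt_eq_deriv_riemannZeta_div hre1] at hb3'
  have hn : ‖riemannZeta s‖ * ‖LSeries (fun n => ((ArithmeticFunction.moebius n : ℤ) : ℂ)) s‖ = 1 := by
    rw [← norm_mul, hmul, norm_one]
  have hzpos : 0 < ‖riemannZeta s‖ := norm_pos_iff.mpr hz
  have hzlow : C2⁻¹ ≤ ‖riemannZeta s‖ := by
    have hC2' : 0 < C2 := by linarith
    rw [inv_le_comm₀ hC2' hzpos]
    have h2 : ‖riemannZeta s‖⁻¹ = ‖LSeries (fun n => ((ArithmeticFunction.moebius n : ℤ) : ℂ)) s‖ :=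
      (eq_inv_of_mul_eq_one_right hn).symm
    rw [h2]
    exact hb2'
  have hs1 : ε ≤ ‖s - 1‖ := by
    refine le_trans ?_ (Complex.re_le_norm (s - 1))
    simp
    linarith
  have hne1 : s - 1 ≠ 0 := by rw [← norm_pos_iff]; linarith
  have hs2 : ‖s + 2‖ ≤ ‖s - 1‖ + 3 := by
    have e : s + 2 = (s - 1) + 3 := by ring
    rw [e]
    refine (norm_add_le _ _).trans ?_
    norm_num
  have hne2 : s + 2 ≠ 0 := fun h0 => by
    have := congrArg Complex.re h0
    simp at this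
    linarith
  have hpos2 : 0 < ‖s + 2‖ := norm_pos_iff.2 hne2
  have hq1 : ‖(s - 1) / (s + 2)‖ ≤ 1 := by
    rw [norm_div, div_le_one hpos2]
    rw [Complex.norm_def, Complex.norm_def]
    apply Real.sqrt_le_sqrt
    rw [Complex.normSq_apply, Complex.normSq_apply]
    simp
    nlinarith
  have hq2 : ε / (ε + 3) ≤ ‖(s - 1) / (s + 2)‖ := by
    rw [norm_div, div_le_div_iff₀ (by linarith) hpos2]
    nlinarith [norm_nonneg (s - 1)]
  rw [ZZ_eq_re hre1, norm_mul]
  refine ⟨?_, ?_, ?_⟩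
  · gcongr
  · calc ‖(s - 1) / (s + 2)‖ * ‖riemannZeta s‖ ≤ 1 * C1 := by gcongr
      _ ≤ _ := by
        have : 0 < 1 / ε := by positivity
        linarith
  · have hev : ZZ =ᶠ[𝓝 s] fun s => (s - 1) / (s + 2) * riemannZeta s := by
      have ho : IsOpen {s : ℂ | 1 < s.re} := isOpen_lt continuous_const Complex.continuous_re
      filter_upwards [ho.mem_nhds hre1] with s hs
      exact ZZ_eq_re hs
    have hqd : HasDerivAt (fun w : ℂ => (w - 1) / (w + 2)) ((1 * (s + 2) - (s - 1) * 1) / (s + 2) ^ 2) s :=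
      ((hasDerivAt_id s).sub_const 1).div ((hasDerivAt_id s).add_const 2) hne2
    have hzd : DifferentiableAt ℂ riemannZeta s := differentiableAt_riemannZeta (sub_ne_zero.1 hne1)
    have e0 : logDeriv ZZ s = logDeriv (fun s : ℂ => (s - 1) / (s + 2) * riemannZeta s) s := by
      rw [logDeriv_apply, logDeriv_apply, hev.deriv_eq, hev.eq_of_nhds]
    have e1 : logDeriv (fun s : ℂ => (s - 1) / (s + 2) * riemannZeta s) s =
        logDeriv (fun s : ℂ => (s - 1) / (s + 2)) s + logDeriv riemannZeta s :=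
      logDeriv_mul s (div_ne_zero hne1 hne2) hz hqd.differentiableAt hzd
    have e2 : logDeriv (fun s : ℂ => (s - 1) / (s + 2)) s = 1 / (s - 1) - 1 / (s + 2) := by
      rw [logDeriv_apply, hqd.deriv]
      exact q_alg hne1 hne2
    have g3 : ‖1 / (s - 1)‖ ≤ 1 / ε := by
      rw [norm_div, norm_one]
      exact one_div_le_one_div_of_le hε hs1
    have g4 : ‖1 / (s + 2)‖ ≤ 1 := by
      rw [norm_div, norm_one, div_le_one hpos2]
      refine le_trans ?_ (Complex.re_le_norm (s + 2))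
      simp
      linarith
    have g5 : ‖logDeriv riemannZeta s‖ ≤ C3 := by
      rw [logDeriv_apply]
      calc ‖deriv riemannZeta s / riemannZeta s‖ = ‖-deriv riemannZeta s / riemannZeta s‖ := by
            rw [neg_div, norm_neg]
        _ ≤ C3 := hb3'
    rw [e0, e1, e2]
    refine (norm_add_le _ _).trans ?_
    have g6 := norm_sub_le (1 / (s - 1)) (1 / (s + 2))
    linarith

/-- the zeta function satisfies `CF` -/
theorem cf_zeta : CF (1 / 2) HZ XX ZZ where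
  κ_pos := by norm_num
  diff := XX_diff
  symm := XX_symm
  eq := XX_eq
  diffZ := ZZ_diff
  gam := gam_zeta
  gro := gro_zeta
  rgt := rgt_zeta

end Pool.Agent.Q278.ZA
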