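import Pool.Agent.Q278.ZA.A
import Pool.Agent.Q278.ES.G
import Pool.Agent.W186.SD.MainD
import Pool.Agent.W655.SD.SC2
import Pool.Agent.W327.SD.Top
import Pool.Agent.W803.SD.Totd

set_option autoImplicit false

/-!
# The input for the theorem on averages: the Riemann zeta function
-/

namespace Pool.Agent.Q278.ZA

open Complex Filter Topology MeasureTheory Set
open Pool.Agent.H24R2.JP (XX HH Om FF Par)
open Pool.Agent.H24R2.DZ (SC2 ra)
open Pool.Agent.Y671.GL (CF TopL)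
open Pool.Agent.Q278.ES (GoodE LX)
open Pool.Agent.Q246.SA (Sy)
open scoped ComplexConjugate

theorem sc2 : SC2 := Pool.Agent.W655.SD.sc2 Pool.Agent.W261.SD.ssq Pool.Agent.W688.SD.shar

theorem good_zeta : GoodE (1 / 2) XX := by
  intro η hη
  obtain ⟨η1, ε1, hη1, hε1, h2⟩ := sc2 η hη
  obtain ⟨θ, c, C, a0, T0, hθ, hθ1, hc, hC, ha0, hT0, h1⟩ := Pool.Agent.W186.SD.sc1 η1 ε1 hη1 hε1
  obtain ⟨a1, T1, h2⟩ := h2 θ hθ hθ1
  refine ⟨c, C, max a0 a1, max T0 T1, hc, hC, ha0.trans (le_max_left _ _), hT0.trans (le_max_left _ _),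
    fun T a r hT ha hr hr1 _ he => ?_⟩
  have hT0' : T0 ≤ T := (le_max_left _ _).trans hT
  have hT1' : T1 ≤ T := (le_max_right _ _).trans hT
  have hl : 0 < Real.log T := Real.log_pos (by linarith)
  have ha2 : a ≤ Real.log T / 200 := by rw [← he]; nlinarith
  have hra : ra T a = r := by
    unfold Pool.Agent.H24R2.DZ.ra
    rw [← he]
    field_simp
  refine (measure_mono ?_).trans (h1 T a hT0' ((le_max_left _ _).trans ha) ha2)
  rintro t ⟨g1, g2, g3⟩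
  refine ⟨g1, g2, fun hG => g3 ?_⟩
  have h3 := h2 T a t hT1' ((le_max_right _ _).trans ha) ha2 g1 g2 hG
  rw [hra] at h3
  exact h3

theorem top_zeta : TopL (1 / 2) XX := by
  intro R ε0 η hR hε0 hη
  obtain ⟨c, C, T0, hc, hC, hT0, h⟩ := W327.SD.top R ε0 (2 * η) hR hε0 (by linarith)
  refine ⟨c, C, T0, hc, hC, hT0, fun T hT => (measure_mono ?_).trans (h T hT)⟩
  rintro t ⟨g1, g2, g3⟩
  refine ⟨g1, g2, fun hF => g3 fun z hz1 hz2 => ?_⟩
  obtain ⟨h1, h2⟩ := hF z hz1 hz2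
  refine ⟨h1, ?_⟩
  have e1 : Om t = 1 / 2 * Real.log t := by unfold Pool.Agent.H24R2.JP.Om; ring
  rw [e1] at h2
  have e2 : 2 * η * (1 / 2 * Real.log t) = η * Real.log t := by ring
  rw [e2] at h2
  exact h2

theorem XX_slow : ∃ K : ℝ, 0 < K ∧ ∀ z : ℂ, ‖XX z‖ ≤ Real.exp (K * (1 + ‖z‖) ^ (3 / 2 : ℝ)) := by
  obtain ⟨K, hK⟩ := Pool.Agent.H24R2.JP.growT
  refine ⟨max K 1, lt_of_lt_of_le one_pos (le_max_right _ _), fun z => ?_⟩
  rw [← Pool.Agent.H24R2.JP.b1.2.1 z]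
  refine (hK (z ^ 2)).trans (Real.exp_le_exp.2 ?_)
  have h0 := norm_nonneg z
  have h1 : (1 + ‖z ^ 2‖) ^ (3 / 4 : ℝ) ≤ (1 + ‖z‖) ^ (3 / 2 : ℝ) := by
    have e : (1 + ‖z‖) ^ (3 / 2 : ℝ) = ((1 + ‖z‖) ^ 2) ^ (3 / 4 : ℝ) := by
      rw [← Real.rpow_natCast, ← Real.rpow_mul (by linarith)]
      norm_num
    rw [e, norm_pow]
    apply Real.rpow_le_rpow (by positivity) _ (by norm_num)
    nlinarith
  have h2 : 0 ≤ (1 + ‖z ^ 2‖) ^ (3 / 4 : ℝ) := by positivity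
  calc K * (1 + ‖z ^ 2‖) ^ (3 / 4 : ℝ) ≤ max K 1 * (1 + ‖z ^ 2‖) ^ (3 / 4 : ℝ) :=
        mul_le_mul_of_nonneg_right (le_max_left _ _) h2
    _ ≤ _ := mul_le_mul_of_nonneg_left h1 (le_trans zero_le_one (le_max_right _ _))

theorem XX_strip (z : ℂ) (h : XX z = 0) : |z.re| ≤ 1 / 2 := by
  rw [← Pool.Agent.H24R2.JP.b1.2.1 z] at h
  have h1 : (z ^ 2).re + (z ^ 2).im ^ 2 ≤ 1 / 4 := Pool.Agent.H24R2.JP.zerosT _ h
  have e1 : (z ^ 2).re = z.re ^ 2 - z.im ^ 2 := by rw [pow_two, Complex.mul_re]; ring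
  have e2 : (z ^ 2).im = 2 * z.re * z.im := by rw [pow_two, Complex.mul_im]; ring
  rw [e1, e2] at h1
  apply abs_le_of_sq_le_sq _ (by norm_num)
  by_contra hcon
  push Not at hcon
  nlinarith [sq_nonneg z.im]

theorem sy_zeta : Sy XX where
  diff := XX_diff
  symm := XX_symm
  zero := by
    obtain ⟨c, T0, hc, hT0, h⟩ := Pool.Agent.W803.SD.totd
    have hl : 0 < Real.log T0 := Real.log_pos (by linarith)
    have hT : 0 < T0 := by linarith
    obtain ⟨S, hS, h1⟩ := h 0 T0 le_rfl (by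
      have : 0 ≤ c * T0 * Real.log T0 := by positivity
      simpa using this)
    rcases S.eq_empty_or_nonempty with h0 | ⟨s, hs⟩
    · exfalso
      rw [h0, Finset.card_empty] at h1
      have : 0 < c * T0 * Real.log T0 := by positivity
      simp at h1
      linarith
    · have := (hS s hs).1
      rw [iteratedDeriv_zero] at this
      exact ⟨s, this⟩
  strip := XX_strip
  app := by
    obtain ⟨K, hK, h⟩ := XX_slow
    refine Pool.Agent.Q246.NC.approx_symm XX_diff XX_symm ⟨1, fun h0 => ?_⟩ hK h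
    have := XX_strip 1 h0
    norm_num at this

/-- **The input for zeta.** -/
theorem lx_zeta : LX (1 / 2) HZ XX ZZ := ⟨le_rfl, cf_zeta, good_zeta, top_zeta, sy_zeta⟩

end Pool.Agent.Q278.ZA
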